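import Pool.Agent.Mob.Stmts2
import Pool.Agent.Helper75_Mob.Cel

/-!
# CE2: slow spreading makes the cells weakly good with high probability
-/

set_option autoImplicit false
set_option linter.unusedSectionVars false
set_option linter.unusedVariables false

open MeasureTheory ProbabilityTheory Function Filter Topology

open scoped ENNReal BigOperators

noncomputable section

namespace Pool.Agent.Mob.H81

open Pool.Agent.Anderson Pool.Agent.Loc Pool.Agent.Helper54.Bal Pool.Agent.Mob.H75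

variable {d : ℕ}

theorem cellG2_congr {V V' : Site d → ℝ} {c : Site d} {ℓ : ℕ} {γ E : ℝ}
    (h : ∀ x ∈ box c (3 * ℓ), V x = V' x) : CellG2 V c ℓ γ E ↔ CellG2 V' c ℓ γ E := by
  unfold CellG2
  rw [RM_congr h]
  simp only [gr_congr h]

theorem measurable_cellG2 (c : Site d) (ℓ : ℕ) (γ E : ℝ) :
    MeasurableSet {V : Site d → ℝ | CellG2 V c ℓ γ E} := by
  have h : {V : Site d → ℝ | CellG2 V c ℓ γ E} =
      {V | (RM V (box c (3 * ℓ)) E).det ≠ 0} ∩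
        ⋂ x ∈ box c ℓ, {V | ∑ y ∈ (box c (3 * ℓ)).filter (fun y => sd c y = 3 * ℓ),
          |gr V (box c (3 * ℓ)) E x y| ≤ γ} := by
    ext V
    simp only [CellG2, Set.mem_ofPred_eq, Set.mem_inter_iff, Set.mem_iInter]
  rw [h]
  apply MeasurableSet.inter
  · exact (measurableSet_eq_fun (continuous_det _ E).measurable measurable_const).compl
  · apply Finset.measurableSet_biInter
    intro x _
    exact measurableSet_le (Finset.measurable_sum _ fun y _ => (measurable_gr _ E x y).abs)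
      measurable_const

theorem pow_diff {a b : ℝ} (hb : 0 ≤ b) (hab : b ≤ a) (n : ℕ) :
    a ^ (n + 1) - b ^ (n + 1) ≤ (n + 1) * (a - b) * a ^ n := by
  have ha : 0 ≤ a := hb.trans hab
  induction n with
  | zero => simp
  | succ n ih =>
    have h1 : b ^ (n + 1) ≤ a ^ (n + 1) := pow_le_pow_left₀ hb hab _
    have h2 : a ^ (n + 1 + 1) - b ^ (n + 1 + 1) =
        a * (a ^ (n + 1) - b ^ (n + 1)) + (a - b) * b ^ (n + 1) := by ring
    have h3 := mul_le_mul_of_nonneg_left ih ha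
    have h4 := mul_le_mul_of_nonneg_left h1 (sub_nonneg.2 hab)
    rw [h2]
    push_cast
    have h5 : a * ((n + 1) * (a - b) * a ^ n) + (a - b) * a ^ (n + 1) =
        ((n : ℝ) + 1 + 1) * (a - b) * a ^ (n + 1) := by ring
    linarith

/-- the number of the points of a sphere -/
theorem card_sphere (hd : 1 ≤ d) (c : Site d) {ℓ : ℕ} (hℓ : 1 ≤ ℓ) :
    ((((box c (3 * ℓ)).filter (fun y => sd c y = 3 * ℓ)).card : ℕ) : ℝ) ≤
      2 * d * (6 * ℓ + 1) ^ (d - 1) := by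
  have h1 : (box c (3 * ℓ)).filter (fun y => sd c y = 3 * ℓ) =
      box c (3 * ℓ) \ box c (3 * ℓ - 1) := by
    ext y
    simp only [Finset.mem_filter, Finset.mem_sdiff, mem_box]
    omega
  have h2 : box c (3 * ℓ - 1) ⊆ box c (3 * ℓ) := by
    intro y hy
    rw [mem_box] at hy ⊢
    omega
  rw [h1, Finset.card_sdiff_of_subset h2, Nat.cast_sub (Finset.card_le_card h2), card_box, card_box]
  obtain ⟨n, rfl⟩ : ∃ n, d = n + 1 := ⟨d - 1, by omega⟩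
  have hℓ' : (1 : ℝ) ≤ ℓ := by exact_mod_cast hℓ
  have h3 : ((2 * (3 * ℓ - 1) + 1 : ℕ) : ℝ) = 6 * ℓ - 1 := by
    have : 2 * (3 * ℓ - 1) + 1 + 1 = 6 * ℓ := by omega
    have h4 : ((2 * (3 * ℓ - 1) + 1 : ℕ) : ℝ) + 1 = 6 * ℓ := by exact_mod_cast this
    linarith
  have h5 : ((2 * (3 * ℓ) + 1 : ℕ) : ℝ) = 6 * ℓ + 1 := by push_cast; ring
  rw [Nat.cast_pow, Nat.cast_pow, h3, h5, Nat.add_sub_cancel]
  have h6 := pow_diff (a := 6 * (ℓ : ℝ) + 1) (b := 6 * ℓ - 1) (by linarith) (by linarith) n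
  refine h6.trans (le_of_eq ?_)
  push_cast
  ring

theorem lint_sum {α ι : Type*} [MeasurableSpace α] (μ : Measure α) (s : Finset ι)
    (f : ι → α → ℝ≥0∞) : ∑ i ∈ s, ∫⁻ a, f i a ∂μ ≤ ∫⁻ a, ∑ i ∈ s, f i a ∂μ := by
  classical
  induction s using Finset.induction_on with
  | empty => simp
  | insert i s hi ih =>
    rw [Finset.sum_insert hi]
    simp only [Finset.sum_insert hi]
    exact (add_le_add le_rfl ih).trans (le_lintegral_add _ _)

/-- the deterministic part -/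
theorem cell_det {C : ℝ} (hC : 0 < C)
    (hHl : ∀ (d : ℕ) (V : Site d → ℝ) (Λ : Finset (Site d)) (x y : Site d)
      (E r η : ℝ), 0 < η → 8 * η ≤ r → NoEig V Λ E (2 * r) →
      ENNReal.ofReal (|gr V Λ E x y| ^ 2) ≤
        ENNReal.ofReal (C / η) * (∫⁻ F in Set.Icc (E - r) (E + r),
          ENNReal.ofReal (‖gz V Λ (zz η F) x y‖ ^ 2)) +
        ENNReal.ofReal (C / r ^ 2 * Real.exp (-r / (2 * η))))
    (hFv : Fv2Stmt) {V : Site d → ℝ}
    {c : Site d} {ℓ : ℕ} {η r q γ n a b E : ℝ} (hη : 0 < η) (hr : 8 * η ≤ r)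
    (ha : a < E - r) (hb : E + r < b) (hq : 0 ≤ q) (hγ : 0 ≤ γ)
    (hn : ((((box c (3 * ℓ)).filter (fun y => sd c y = 3 * ℓ)).card : ℕ) : ℝ) ≤ n)
    (h1 : n * (C / η * ((1 + 2 * d / η) ^ 2 * q) +
      n * (C / r ^ 2 * Real.exp (-r / (2 * η)))) ≤ γ ^ 2)
    (hspr : ∀ x ∈ box c ℓ, spr V x η (Set.Ioo a b) ℓ ≤ ENNReal.ofReal q)
    (hno : NoEig V (box c (3 * ℓ)) E (2 * r)) : CellG2 V c ℓ γ E := by
  have hr0 : 0 < r := by linarith
  have hn0 : 0 ≤ n := le_trans (by positivity) hn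
  refine ⟨hno E (by rw [sub_self, abs_zero]; positivity), ?_⟩
  intro x hx
  have hx' := mem_box.1 hx
  have hxB : x ∈ box c (3 * ℓ) := mem_box.2 (by omega)
  have hout : ∀ u, u ∉ box c (3 * ℓ) → ℓ ≤ sd x u := by
    intro u hu
    rw [mem_box] at hu
    have := sd_triangle c x u
    omega
  set S := (box c (3 * ℓ)).filter (fun y => sd c y = 3 * ℓ) with hS
  have hsub : S ⊆ (box c (3 * ℓ)).filter (fun y => ℓ ≤ sd x y) := by
    intro y hy
    rw [hS, Finset.mem_filter] at hy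
    rw [Finset.mem_filter]
    refine ⟨hy.1, ?_⟩
    have := sd_triangle c x y
    omega
  have e1 : ∑ y ∈ S, ENNReal.ofReal (|gr V (box c (3 * ℓ)) E x y| ^ 2) ≤
      ENNReal.ofReal (C / η) * (ENNReal.ofReal ((1 + 2 * d / η) ^ 2) * ENNReal.ofReal q) +
        S.card * ENNReal.ofReal (C / r ^ 2 * Real.exp (-r / (2 * η))) := by
    refine (Finset.sum_le_sum fun y _ => hHl d V (box c (3 * ℓ)) x y E r η hη hr hno).trans ?_
    rw [Finset.sum_add_distrib, Finset.sum_const, nsmul_eq_mul, ← Finset.mul_sum]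
    refine add_le_add (mul_le_mul' le_rfl ?_) le_rfl
    refine (lint_sum _ S _).trans ?_
    have e2 : ∫⁻ F in Set.Icc (E - r) (E + r),
        ∑ y ∈ S, ENNReal.ofReal (‖gz V (box c (3 * ℓ)) (zz η F) x y‖ ^ 2) ≤
        ∫⁻ F in Set.Icc (E - r) (E + r), ENNReal.ofReal ((1 + 2 * d / η) ^ 2) *
          (∑' u : Site d, if ℓ ≤ sd x u then
            ENNReal.ofReal (‖G V (zz η F) (del x) u‖ ^ 2) else 0) := by
      apply lintegral_mono
      intro F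
      exact (Finset.sum_le_sum_of_subset hsub).trans
        (hFv d V (box c (3 * ℓ)) η F ℓ x hη hxB hout)
    refine e2.trans ?_
    rw [lintegral_const_mul' _ _ ENNReal.ofReal_ne_top]
    refine mul_le_mul' le_rfl (le_trans ?_ (hspr x hx))
    unfold spr
    exact lintegral_mono_set fun F hF => ⟨lt_of_lt_of_le ha hF.1, lt_of_le_of_lt hF.2 hb⟩
  have e3 : ∑ y ∈ S, |gr V (box c (3 * ℓ)) E x y| ^ 2 ≤
      C / η * ((1 + 2 * d / η) ^ 2 * q) + S.card * (C / r ^ 2 * Real.exp (-r / (2 * η))) := by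
    rw [← ENNReal.ofReal_sum_of_nonneg (fun _ _ => by positivity)] at e1
    rw [← ENNReal.ofReal_mul (by positivity), ← ENNReal.ofReal_mul (by positivity),
      ← ENNReal.ofReal_natCast, ← ENNReal.ofReal_mul (by positivity),
      ← ENNReal.ofReal_add (by positivity) (by positivity)] at e1
    exact (ENNReal.ofReal_le_ofReal_iff (by positivity)).1 e1
  have e4 : (∑ y ∈ S, |gr V (box c (3 * ℓ)) E x y|) ^ 2 ≤
      S.card * ∑ y ∈ S, |gr V (box c (3 * ℓ)) E x y| ^ 2 := sq_sum_le_card_mul_sum_sq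
  have e5 : (∑ y ∈ S, |gr V (box c (3 * ℓ)) E x y|) ^ 2 ≤ γ ^ 2 := by
    refine e4.trans (le_trans ?_ h1)
    have h6 : 0 ≤ ∑ y ∈ S, |gr V (box c (3 * ℓ)) E x y| ^ 2 :=
      Finset.sum_nonneg fun _ _ => by positivity
    refine (mul_le_mul_of_nonneg_right hn h6).trans ?_
    apply mul_le_mul_of_nonneg_left _ hn0
    refine e3.trans ?_
    have h7 : 0 ≤ C / r ^ 2 * Real.exp (-r / (2 * η)) := by positivity
    have := mul_le_mul_of_nonneg_right hn h7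
    linarith
  exact (pow_le_pow_iff_left₀ (Finset.sum_nonneg fun _ _ => abs_nonneg _) hγ (by norm_num)).1 e5

/-- the probabilistic part -/
theorem cell_prob {C : ℝ} (hC : 0 < C)
    (hHl : ∀ (d : ℕ) (V : Site d → ℝ) (Λ : Finset (Site d)) (x y : Site d)
      (E r η : ℝ), 0 < η → 8 * η ≤ r → NoEig V Λ E (2 * r) →
      ENNReal.ofReal (|gr V Λ E x y| ^ 2) ≤
        ENNReal.ofReal (C / η) * (∫⁻ F in Set.Icc (E - r) (E + r),
          ENNReal.ofReal (‖gz V Λ (zz η F) x y‖ ^ 2)) +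
        ENNReal.ofReal (C / r ^ 2 * Real.exp (-r / (2 * η))))
    (hFv : Fv2Stmt) (hWeg : WegStmt)
    (hShf : ShfStmt) {ν : Measure ℝ} [IsProbabilityMeasure ν] {ρ : ℝ} (hν : BddDens ν ρ)
    {c : Site d} {ℓ : ℕ} {η r q s γ n a b E : ℝ} (hη : 0 < η) (hr : 8 * η ≤ r)
    (ha : a < E - r) (hb : E + r < b) (hq : 0 < q) (hs : 0 ≤ s) (hγ : 0 ≤ γ)
    (hn : ((((box c (3 * ℓ)).filter (fun y => sd c y = 3 * ℓ)).card : ℕ) : ℝ) ≤ n)
    (h1 : n * (C / η * ((1 + 2 * d / η) ^ 2 * q) +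
      n * (C / r ^ 2 * Real.exp (-r / (2 * η)))) ≤ γ ^ 2)
    (hspr : ENNReal.ofReal η * ∫⁻ V, spr V 0 η (Set.Ioo a b) ℓ ∂(PP d ν) ≤ ENNReal.ofReal s) :
    PL ν (box c (3 * ℓ)) {V | ¬ CellG2 V c ℓ γ E} ≤
      ENNReal.ofReal ((2 * ℓ + 1) ^ d * (s / (η * q)) +
        64 * ρ * (box c (3 * ℓ)).card * (2 * r)) := by
  have hr0 : 0 < r := by linarith
  have hρ := hν.1
  have hint : ∫⁻ V, spr V 0 η (Set.Ioo a b) ℓ ∂(PP d ν) ≤ ENNReal.ofReal (s / η) := by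
    rw [ENNReal.ofReal_div_of_pos hη, ENNReal.le_div_iff_mul_le
      (Or.inl (by rw [ne_eq, ENNReal.ofReal_eq_zero, not_le]; exact hη))
      (Or.inl ENNReal.ofReal_ne_top), mul_comm]
    exact hspr
  have hloc : Loc {V : Site d → ℝ | ¬ CellG2 V c ℓ γ E} (box c (3 * ℓ)) := by
    intro V V' hVV
    exact not_congr (cellG2_congr hVV)
  have hms : MeasurableSet {V : Site d → ℝ | ¬ CellG2 V c ℓ γ E} :=
    (measurable_cellG2 c ℓ γ E).compl
  rw [PL_eq_PP hms hloc]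
  have hsub : {V : Site d → ℝ | ¬ CellG2 V c ℓ γ E} ⊆
      (⋃ x ∈ box c ℓ, {V | ENNReal.ofReal q ≤ spr V x η (Set.Ioo a b) ℓ}) ∪
        {V | ¬ NoEig V (box c (3 * ℓ)) E (2 * r)} := by
    intro V hV
    by_contra hcon
    simp only [Set.mem_union, Set.mem_iUnion, Set.mem_ofPred_eq, not_or, not_exists, not_not,
      not_le, exists_prop, not_and] at hcon
    exact hV (cell_det hC hHl hFv hη hr ha hb hq.le hγ hn h1
      (fun x hx => (hcon.1 x hx).le) hcon.2)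
  have hq0 : ENNReal.ofReal q ≠ 0 := by
    rw [ne_eq, ENNReal.ofReal_eq_zero, not_le]; exact hq
  have hone : ∀ x : Site d, PP d ν {V | ENNReal.ofReal q ≤ spr V x η (Set.Ioo a b) ℓ} ≤
      ENNReal.ofReal (s / (η * q)) := by
    intro x
    obtain ⟨m1, m2⟩ := hShf d ν η hη.ne' a b ℓ x
    refine (meas_ge_le_lintegral_div m1.aemeasurable hq0 ENNReal.ofReal_ne_top).trans ?_
    rw [m2, ← div_div, ENNReal.ofReal_div_of_pos hq]
    exact ENNReal.div_le_div_right hint _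
  have hw : PP d ν {V | ¬ NoEig V (box c (3 * ℓ)) E (2 * r)} ≤
      ENNReal.ofReal (64 * ρ * (box c (3 * ℓ)).card * (2 * r)) := by
    refine (PP_le_PL (Λ := box c (3 * ℓ)) ?_).trans
      (hWeg d ν ρ hν (box c (3 * ℓ)) E (2 * r) (by positivity)).2
    intro V V' hVV
    exact not_congr (noEig_congr hVV)
  refine (measure_mono hsub).trans ((measure_union_le _ _).trans ?_)
  rw [ENNReal.ofReal_add (by positivity) (by positivity)]
  refine add_le_add ?_ hw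
  refine (measure_biUnion_finset_le _ _).trans ?_
  refine (Finset.sum_le_card_nsmul _ _ _ fun x _ => hone x).trans_eq ?_
  rw [card_box, nsmul_eq_mul, ENNReal.ofReal_mul (by positivity), ← ENNReal.ofReal_natCast]
  congr 2
  push_cast
  ring

section Exponents

variable {N D δ η K : ℝ}

/-- the first term -/
theorem t1 (hN : 1 ≤ N) (hD : 1 ≤ D) (hδ : 0 < δ) (hδ1 : δ ≤ 1 / 10) (hη0 : 0 < η) (hη1' : η ≤ 1)
    (hη : N ^ (-(D + 2 * δ)) ≤ η) {C k n : ℝ} (hC : 0 < C) (hk : 0 ≤ k)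
    (hn : n ≤ k * N ^ (D - 1)) (hn0 : 0 ≤ n)
    (hK : 2 * (C * k * (1 + 2 * D) ^ 2) ≤ N ^ (1 / 20 : ℝ)) :
    n * (C / η * ((1 + 2 * D / η) ^ 2 * (N ^ (-(6 * D)) * N ^ (D + δ / 2) / η))) ≤
      1 / 2 * N ^ (-(1 / 10 : ℝ)) := by
  have hN0 : 0 < N := by linarith
  have h1 : 1 / η ≤ N ^ (D + 2 * δ) := inv_le_of_ge hN0 hη
  have h2 : 1 + 2 * D / η ≤ (1 + 2 * D) * (1 / η) := by
    have h3 : 1 ≤ 1 / η := by rw [le_div_iff₀ hη0]; linarith
    have h4 : 2 * D / η = 2 * D * (1 / η) := by ring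
    rw [h4]
    nlinarith
  have h3 : (1 + 2 * D / η) ^ 2 ≤ ((1 + 2 * D) * (1 / η)) ^ 2 :=
    pow_le_pow_left₀ (by positivity) h2 2
  have hq : 0 ≤ N ^ (-(6 * D)) * N ^ (D + δ / 2) := by positivity
  have h4 : C / η * ((1 + 2 * D / η) ^ 2 * (N ^ (-(6 * D)) * N ^ (D + δ / 2) / η)) ≤
      C * (1 + 2 * D) ^ 2 * (N ^ (-(6 * D)) * N ^ (D + δ / 2)) * (1 / η) ^ 4 := by
    have h5 : C / η * ((1 + 2 * D / η) ^ 2 * (N ^ (-(6 * D)) * N ^ (D + δ / 2) / η)) ≤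
        C / η * (((1 + 2 * D) * (1 / η)) ^ 2 * (N ^ (-(6 * D)) * N ^ (D + δ / 2) / η)) := by
      gcongr
    refine h5.trans (le_of_eq ?_)
    field_simp
  have h6 : (1 / η) ^ 4 ≤ N ^ (4 * (D + 2 * δ)) := by
    have h7 := pow_le_pow_left₀ (by positivity) h1 4
    refine h7.trans (le_of_eq ?_)
    rw [← Real.rpow_natCast, ← Real.rpow_mul hN0.le]
    congr 1
    push_cast
    ring
  calc n * (C / η * ((1 + 2 * D / η) ^ 2 * (N ^ (-(6 * D)) * N ^ (D + δ / 2) / η)))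
      ≤ (k * N ^ (D - 1)) * (C * (1 + 2 * D) ^ 2 * (N ^ (-(6 * D)) * N ^ (D + δ / 2)) *
          N ^ (4 * (D + 2 * δ))) := by
        apply mul_le_mul hn _ (by positivity) (by positivity)
        exact h4.trans (mul_le_mul_of_nonneg_left h6 (by positivity))
    _ = (C * k * (1 + 2 * D) ^ 2) * (N ^ (D - 1) * (N ^ (-(6 * D)) * N ^ (D + δ / 2) *
          N ^ (4 * (D + 2 * δ)))) := by ring
    _ = (C * k * (1 + 2 * D) ^ 2) * N ^ (-1 + 17 / 2 * δ) := by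
        rw [← Real.rpow_add hN0, ← Real.rpow_add hN0, ← Real.rpow_add hN0]
        congr 2
        ring
    _ ≤ (C * k * (1 + 2 * D) ^ 2) * N ^ (-(3 / 20) : ℝ) := by
        apply mul_le_mul_of_nonneg_left _ (by positivity)
        exact Real.rpow_le_rpow_of_exponent_le hN (by linarith)
    _ ≤ (1 / 2 * N ^ (1 / 20 : ℝ)) * N ^ (-(3 / 20) : ℝ) := by
        apply mul_le_mul_of_nonneg_right (by linarith) (by positivity)
    _ = 1 / 2 * N ^ (-(1 / 10 : ℝ)) := by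
        rw [mul_assoc, ← Real.rpow_add hN0]
        congr 2
        norm_num

/-- the second term -/
theorem t2 (hN : 1 ≤ N) (hD : 1 ≤ D) (hδ : 0 < δ) (hδ1 : δ ≤ 1 / 10) (hη0 : 0 < η)
    (hη : η ≤ N ^ (-(D + δ))) {C k n : ℝ} (hC : 0 < C) (hk : 0 ≤ k)
    (hn : n ≤ k * N ^ (D - 1)) (hn0 : 0 ≤ n) (hK1 : C * k ^ 2 ≤ N)
    (hK : 3 * (N ^ (4 * D + 4) * Real.exp (-(1 / 4) * N ^ (δ / 2))) ≤ 1) :
    n * (n * (C / (N ^ (-(D + δ / 2))) ^ 2 * Real.exp (-N ^ (-(D + δ / 2)) / (2 * η)))) ≤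
      1 / 2 * N ^ (-(1 / 10 : ℝ)) := by
  have hN0 : 0 < N := by linarith
  have e2 : Real.exp (-N ^ (-(D + δ / 2)) / (2 * η)) ≤ Real.exp (-(1 / 4) * N ^ (δ / 2)) := by
    apply Real.exp_le_exp.2
    have h1 : N ^ (δ / 2) * η ≤ N ^ (-(D + δ / 2)) := by
      have h2 : N ^ (δ / 2) * N ^ (-(D + δ)) = N ^ (-(D + δ / 2)) := by
        rw [← Real.rpow_add hN0]
        congr 1
        ring
      rw [← h2]
      exact mul_le_mul_of_nonneg_left hη (Real.rpow_pos_of_pos hN0 _).le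
    rw [div_le_iff₀ (by positivity)]
    have h3 : 0 ≤ N ^ (δ / 2) * η := by positivity
    linarith
  have e3 : C / (N ^ (-(D + δ / 2))) ^ 2 ≤ C * N ^ (2 * D + 1) := by
    have h1 : ((N ^ (-(D + δ / 2))) ^ 2)⁻¹ = N ^ (2 * D + δ) := by
      rw [← Real.rpow_natCast, ← Real.rpow_mul hN0.le, ← Real.rpow_neg hN0.le]
      congr 1
      push_cast
      ring
    rw [div_eq_mul_inv, h1]
    exact mul_le_mul_of_nonneg_left
      (Real.rpow_le_rpow_of_exponent_le hN (by linarith)) hC.le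
  have hn2 : n ≤ k * N ^ D :=
    hn.trans (mul_le_mul_of_nonneg_left (Real.rpow_le_rpow_of_exponent_le hN (by linarith)) hk)
  calc n * (n * (C / (N ^ (-(D + δ / 2))) ^ 2 * Real.exp (-N ^ (-(D + δ / 2)) / (2 * η))))
      ≤ (k * N ^ D) * ((k * N ^ D) * ((C * N ^ (2 * D + 1)) *
          Real.exp (-(1 / 4) * N ^ (δ / 2)))) := by
        gcongr
    _ = (C * k ^ 2) * ((N ^ D * N ^ D * N ^ (2 * D + 1)) *
          Real.exp (-(1 / 4) * N ^ (δ / 2))) := by ring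
    _ = (C * k ^ 2) * (N ^ (4 * D + 1) * Real.exp (-(1 / 4) * N ^ (δ / 2))) := by
        rw [← Real.rpow_add hN0, ← Real.rpow_add hN0]
        congr 3
        ring
    _ ≤ N * (N ^ (4 * D + 1) * Real.exp (-(1 / 4) * N ^ (δ / 2))) := by gcongr
    _ = (N ^ (4 * D + 4) * Real.exp (-(1 / 4) * N ^ (δ / 2))) * N ^ (-2 : ℝ) := by
        have h1 : N * N ^ (4 * D + 1) = N ^ (4 * D + 4) * N ^ (-2 : ℝ) := by
          nth_rewrite 1 [← Real.rpow_one N]
          rw [← Real.rpow_add hN0, ← Real.rpow_add hN0]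
          congr 1
          ring
        rw [← mul_assoc, h1]
        ring
    _ ≤ 1 / 2 * N ^ (-(1 / 10 : ℝ)) := by
        apply mul_le_mul (by linarith) _ (by positivity) (by norm_num)
        exact Real.rpow_le_rpow_of_exponent_le hN (by norm_num)

/-- the probability -/
theorem t3 (hN : 1 ≤ N) (hδ : 0 < δ) (hη0 : 0 < η)
    {M₁ M₂ k₁ k₂ ρ : ℝ} (hk₁ : 0 ≤ k₁) (hk₂ : 0 ≤ k₂) (hρ : 0 ≤ ρ) (hM₁ : M₁ ≤ k₁ * N ^ D)
    (hM₂ : M₂ ≤ k₂ * N ^ D) (hK : k₁ + 128 * ρ * k₂ ≤ N ^ (δ / 4)) :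
    M₁ * (N ^ (-(6 * D)) / (η * (N ^ (-(6 * D)) * N ^ (D + δ / 2) / η))) + 64 * ρ * M₂ *
      (2 * N ^ (-(D + δ / 2))) ≤ N ^ (-(δ / 4)) := by
  have hN0 : 0 < N := by linarith
  have e1 : N ^ (-(6 * D)) / (η * (N ^ (-(6 * D)) * N ^ (D + δ / 2) / η)) =
      N ^ (-(D + δ / 2)) := by
    rw [Real.rpow_neg hN0.le (D + δ / 2)]
    have h1 : N ^ (-(6 * D)) ≠ 0 := (Real.rpow_pos_of_pos hN0 _).ne'
    have h2 : N ^ (D + δ / 2) ≠ 0 := (Real.rpow_pos_of_pos hN0 _).ne'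
    field_simp
  rw [e1]
  have hp := Real.rpow_pos_of_pos hN0 (-(D + δ / 2))
  calc M₁ * N ^ (-(D + δ / 2)) + 64 * ρ * M₂ * (2 * N ^ (-(D + δ / 2)))
      ≤ (k₁ * N ^ D) * N ^ (-(D + δ / 2)) + 64 * ρ * (k₂ * N ^ D) *
          (2 * N ^ (-(D + δ / 2))) := by gcongr
    _ = (k₁ + 128 * ρ * k₂) * (N ^ D * N ^ (-(D + δ / 2))) := by ring
    _ = (k₁ + 128 * ρ * k₂) * N ^ (-(δ / 2)) := by
        rw [← Real.rpow_add hN0]
        congr 2
        ring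
    _ ≤ N ^ (δ / 4) * N ^ (-(δ / 2)) := by gcongr
    _ = N ^ (-(δ / 4)) := by
        rw [← Real.rpow_add hN0]
        congr 1
        ring

end Exponents

theorem ce2 (hHl2 : Hl2Stmt) (hFv2 : Fv2Stmt) (hWeg : WegStmt) (hShf : ShfStmt) : Ce2Stmt := by
  obtain ⟨C, hC, hHl⟩ := hHl2
  intro d hd σ hσ δ h hδ hδ1 hh
  have hρ := bddDens_gl hσ
  have hρ0 := hρ.1
  set ρ : ℝ := 1 / |σ| with hρd
  have hD : (1 : ℝ) ≤ d := by exact_mod_cast hd
  obtain ⟨k, hk⟩ : ∃ k : ℝ, k = 2 * d * 7 ^ d := ⟨_, rfl⟩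
  have hk0 : 0 ≤ k := by rw [hk]; positivity
  have ev1 := ev_rpow (show (0 : ℝ) < 1 by norm_num) (max (max 14 (3 / h)) (C * k ^ 2))
  have ev2 := ev_rpow (show (0 : ℝ) < δ / 4 by positivity) (max 3 (3 ^ d + 128 * ρ * 7 ^ d))
  have ev3 := ev_exp (show (0 : ℝ) < δ / 2 by positivity) (4 * (d : ℝ) + 4)
  have ev4 := ev_rpow (show (0 : ℝ) < 1 / 20 by norm_num) (2 * (C * k * (1 + 2 * (d : ℝ)) ^ 2))
  obtain ⟨ℓ₀, hℓ₀⟩ := eventually_atTop.1 (ev1.and (ev2.and (ev3.and ev4)))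
  refine ⟨ℓ₀, ?_⟩
  intro ℓ hℓ η hη1 hη2 a b hspr E hE1 hE2 c
  obtain ⟨k1, k2, k3, k4⟩ := hℓ₀ ℓ hℓ
  rw [Real.rpow_one] at k1
  set N : ℝ := (ℓ : ℝ) with hN
  obtain ⟨⟨k11, k12⟩, k13⟩ : (14 ≤ N ∧ 3 / h ≤ N) ∧ C * k ^ 2 ≤ N := by
    simpa only [max_le_iff] using k1
  obtain ⟨k21, k22⟩ : 3 ≤ N ^ (δ / 4) ∧ 3 ^ d + 128 * ρ * 7 ^ d ≤ N ^ (δ / 4) := by
    simpa only [max_le_iff] using k2
  have hN1 : 1 ≤ N := by linarith
  have hN0 : 0 < N := by linarith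
  have hℓ1 : 1 ≤ ℓ := by
    rw [hN] at hN0
    have : 0 < ℓ := by exact_mod_cast hN0
    omega
  have hη0 : 0 < η := lt_of_lt_of_le (Real.rpow_pos_of_pos hN0 _) hη1
  have hη1' : η ≤ 1 := hη2.trans (Real.rpow_le_one_of_one_le_of_nonpos hN1 (by linarith))
  have hcard : (((box c (3 * ℓ)).card : ℕ) : ℝ) ≤ 7 ^ d * N ^ (d : ℝ) := by
    rw [card_box, Real.rpow_natCast, ← mul_pow]
    push_cast
    apply pow_le_pow_left₀ (by positivity)
    linarith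
  have hcard2 : (2 * N + 1) ^ d ≤ 3 ^ d * N ^ (d : ℝ) := by
    rw [Real.rpow_natCast, ← mul_pow]
    apply pow_le_pow_left₀ (by positivity)
    linarith
  have hcard3 : ((((box c (3 * ℓ)).filter (fun y => sd c y = 3 * ℓ)).card : ℕ) : ℝ) ≤
      k * N ^ ((d : ℝ) - 1) := by
    refine (card_sphere hd c hℓ1).trans ?_
    have h1 : N ^ ((d : ℝ) - 1) = N ^ (d - 1) := by
      rw [← Real.rpow_natCast, Nat.cast_sub hd, Nat.cast_one]
    rw [h1, hk, ← hN]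
    have h2 : (6 * N + 1) ^ (d - 1) ≤ 7 ^ d * N ^ (d - 1) := by
      calc (6 * N + 1) ^ (d - 1) ≤ (7 * N) ^ (d - 1) :=
            pow_le_pow_left₀ (by positivity) (by linarith) _
        _ = 7 ^ (d - 1) * N ^ (d - 1) := mul_pow _ _ _
        _ ≤ 7 ^ d * N ^ (d - 1) := by
            apply mul_le_mul_of_nonneg_right _ (by positivity)
            exact pow_le_pow_right₀ (by norm_num) (by omega)
    have h3 := mul_le_mul_of_nonneg_left h2 (show (0 : ℝ) ≤ 2 * d by positivity)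
    linarith
  have hn0 : 0 ≤ k * N ^ ((d : ℝ) - 1) := by positivity
  have hr : N ^ (-((d : ℝ) + δ / 2)) ≤ 1 / N := neg_le_inv hN1 (by linarith)
  have hNh : 3 * (1 / N) ≤ h := by
    rw [div_le_iff₀ hh] at k12
    rw [mul_one_div, div_le_iff₀ hN0]
    linarith
  have hN1' : 0 < 1 / N := by positivity
  have hT1 := t1 hN1 hD hδ hδ1 hη0 hη1' hη1 hC hk0 (le_refl (k * N ^ ((d : ℝ) - 1))) hn0 k4
  have hT2 := t2 hN1 hD hδ hδ1 hη0 hη2 hC hk0 (le_refl (k * N ^ ((d : ℝ) - 1))) hn0 k13 k3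
  have hγ2 : (N ^ (-(1 / 20 : ℝ))) ^ 2 = N ^ (-(1 / 10 : ℝ)) := by
    rw [← Real.rpow_natCast, ← Real.rpow_mul hN0.le]
    congr 1
    norm_num
  have main := cell_prob hC hHl hFv2 hWeg hShf hρ (c := c) (ℓ := ℓ) (η := η)
    (r := N ^ (-((d : ℝ) + δ / 2)))
    (q := N ^ (-(6 * (d : ℝ))) * N ^ ((d : ℝ) + δ / 2) / η) (s := N ^ (-(6 * (d : ℝ))))
    (γ := N ^ (-(1 / 20 : ℝ))) (n := k * N ^ ((d : ℝ) - 1)) (a := a) (b := b) (E := E)
    hη0 (c1 hN1 hδ k21 hη2) (by linarith) (by linarith) (by positivity) (by positivity)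
    (by positivity) hcard3 (by rw [hγ2, mul_add]; linarith) hspr
  refine main.trans (ENNReal.ofReal_le_ofReal ?_)
  exact t3 hN1 hδ hη0 (by positivity) (by positivity) hρ0.le hcard2 hcard k22

end Pool.Agent.Mob.H81
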